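import Pool.Agent.helper18.Eis.Cylinder

set_option autoImplicit false

open scoped UpperHalfPlane MatrixGroups Topology
open Filter Pool.Agent.helper18.Eis

namespace Pool.Agent.Results.MP_a92104_an.InfinitelyManyNodalDomains

/-- Negative answer to Q1.  Let `X = Γ \ ℍ` be any hyperbolic surface with `δ(Γ) < 1/2` and with two
disjoint funnels, and let `ξ` be any direction at infinity in the first funnel.  Then for all
sufficiently small `λ ≠ 0` the function `Re E_{1/2+iλ}(·, ξ)` has infinitely many compact nodal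
domains.  By the first part, every hyperbolic cylinder is such a surface. -/
theorem result :
    (∀ ℓ : ℝ, 0 < ℓ → TwoFunnels (cylinderGroup ℓ) 1 flip ℓ ℓ) ∧
    ∀ (Γ : Subgroup SL(2, ℝ)) (g₁ g₂ : SL(2, ℝ)) (ℓ₁ ℓ₂ : ℝ), TwoFunnels Γ g₁ g₂ ℓ₁ ℓ₂ →
      ∀ ξ : ℝ, ∃ lam₀ : ℝ, 0 < lam₀ ∧ ∀ lam : ℝ, lam ≠ 0 → |lam| < lam₀ →
        ∃ E : Surf Γ → ℂ, IsEisenstein Γ g₁ (1 / 2 + lam * Complex.I) ξ E ∧
          {D | IsCompactNodalDomain (fun p => (E p).re) D}.Infinite := by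
  refine ⟨fun ℓ hℓ => cylinder_twoFunnels hℓ, ?_⟩
  rintro Γ g₁ g₂ ℓ₁ ℓ₂ ⟨-, hΓ, hf₁, hf₂, hd⟩ ξ
  obtain ⟨lam₀, h0, h⟩ := main hΓ hf₁ hf₂ hd ξ
  refine ⟨lam₀, h0, fun lam hlam hlt => ?_⟩
  obtain ⟨E, hE, h1, -⟩ := h lam hlam hlt
  exact ⟨E, hE, h1⟩

end Pool.Agent.Results.MP_a92104_an.InfinitelyManyNodalDomains
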